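import Pool.Agent.Q101.ChC

/-!
# MP_f9d380_an, Q1 and Q2: the bound `max {g_m, λ_m} ≲ L_m^ch` fails

For every exponent `s < 2` and every constant `C` there is a real Banach space with a normalized
basis `(x_n)`, with normalized biorthogonal functionals, which is a Markushevich basis and also a
Schauder basis, and there is `L ≥ 1` such that the Chebyshev Lebesgue parameters satisfy
`L_M^ch ≤ L` for all `M`, while the quasi-greedy parameter satisfies `g_m > C L ^ s` for some `m`.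
For `s = 1` this answers both questions negatively; in general it shows that the exponent `2` in
the known bound is optimal.
-/

set_option autoImplicit false

namespace Pool.Agent.Results.MP_f9d380_an.ChebyshevParameterFails

/-- `(x_n)` is a Markushevich basis with biorthogonal functionals `(x_n^*)`:
biorthogonality, dense span, totality of the functionals, and boundedness of both sequences -/
structure IsMarkushevich {E : Type} [NormedAddCommGroup E] [NormedSpace ℝ E]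
    (x : ℕ → E) (xs : ℕ → E →L[ℝ] ℝ) : Prop where
  biorth : ∀ i j, xs i (x j) = if i = j then 1 else 0
  dense : ∀ v : E, v ∈ closure (Submodule.span ℝ (Set.range x) : Set E)
  total : ∀ f : E, (∀ n, xs n f = 0) → f = 0
  bdd : ∃ c, ∀ n, ‖x n‖ ≤ c ∧ ‖xs n‖ ≤ c

/-- the coordinate projection `P_A f = ∑_{n ∈ A} x_n^*(f) x_n` -/
noncomputable def proj {E : Type} [NormedAddCommGroup E] [NormedSpace ℝ E]
    (x : ℕ → E) (xs : ℕ → E →L[ℝ] ℝ) (A : Finset ℕ) (f : E) : E :=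
  ∑ n ∈ A, xs n f • x n

/-- Schauder basis: a Markushevich basis with uniformly bounded partial sum projections -/
structure IsSchauder {E : Type} [NormedAddCommGroup E] [NormedSpace ℝ E]
    (x : ℕ → E) (xs : ℕ → E →L[ℝ] ℝ) : Prop extends IsMarkushevich x xs where
  partial_sums : ∃ M : ℝ, ∀ (N : ℕ) (f : E), ‖proj x xs (Finset.range N) f‖ ≤ M * ‖f‖

/-- `A` is a greedy set of `f` -/
def IsGreedy {E : Type} [NormedAddCommGroup E] [NormedSpace ℝ E]
    (xs : ℕ → E →L[ℝ] ℝ) (A : Finset ℕ) (f : E) : Prop :=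
  ∀ n ∈ A, ∀ k, k ∉ A → |xs k f| ≤ |xs n f|

/-- `A` is the greedy set of `f` chosen by the thresholding greedy algorithm (ties are broken by
the natural order), i.e. `A = A_m(f)` for `m = |A|` -/
def IsTGA {E : Type} [NormedAddCommGroup E] [NormedSpace ℝ E]
    (xs : ℕ → E →L[ℝ] ℝ) (A : Finset ℕ) (f : E) : Prop :=
  ∀ n ∈ A, ∀ k, k ∉ A → |xs k f| < |xs n f| ∨ (|xs k f| = |xs n f| ∧ n < k)

/-- `g_m ≤ C` -/
def QuasiGreedyParamLE {E : Type} [NormedAddCommGroup E] [NormedSpace ℝ E]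
    (x : ℕ → E) (xs : ℕ → E →L[ℝ] ℝ) (m : ℕ) (C : ℝ) : Prop :=
  ∀ (f : E) (A : Finset ℕ), A.card ≤ m → IsGreedy xs A f → ‖proj x xs A f‖ ≤ C * ‖f‖

/-- `L_m^ch ≤ C`: for every `f`, with `A = A_m(f)`, some combination of `(x_n)_{n ∈ A}` is at
distance at most `C ‖f - y‖` from `f`, for every `y` with at most `m` nonzero coordinates -/
def ChebyshevParamLE {E : Type} [NormedAddCommGroup E] [NormedSpace ℝ E]
    (x : ℕ → E) (xs : ℕ → E →L[ℝ] ℝ) (m : ℕ) (C : ℝ) : Prop :=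
  ∀ (f : E) (A : Finset ℕ), A.card = m → IsTGA xs A f →
    ∀ y : E, (∃ S : Finset ℕ, S.card ≤ m ∧ ∀ n, n ∉ S → xs n y = 0) →
      ∃ a : ℕ → ℝ, ‖f - ∑ n ∈ A, a n • x n‖ ≤ C * ‖f - y‖

/-- For every exponent `s < 2` and every `C` there is a normalized Schauder (hence Markushevich)
basis of a real Banach space and `L ≥ 1` such that `L_M^ch ≤ L` for all `M`, while
`g_m > C L ^ s` for some `m ≥ 1`.  (The problem's questions are the case `s = 1`.) -/
theorem result : ∀ s : ℝ, s < 2 → ∀ C : ℝ,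
    ∃ (E : Type) (_ : NormedAddCommGroup E) (_ : NormedSpace ℝ E)
    (_ : CompleteSpace E) (x : ℕ → E) (xs : ℕ → E →L[ℝ] ℝ),
    IsSchauder x xs ∧ (∀ n, ‖x n‖ = 1) ∧ (∀ n, ‖xs n‖ = 1) ∧
    ∃ L : ℝ, 1 ≤ L ∧ (∀ M : ℕ, ChebyshevParamLE x xs M L) ∧
      ∃ m : ℕ, 1 ≤ m ∧ ¬ QuasiGreedyParamLE x xs m (C * L ^ s) := by
  intro s hs C
  obtain ⟨t, ht⟩ : ∃ t : ℝ, t = max s 1 := ⟨_, rfl⟩
  have hst : s ≤ t := by rw [ht]; exact le_max_left _ _
  have ht1 : 1 ≤ t := by rw [ht]; exact le_max_right _ _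
  have ht2 : 0 < 2 - t := by
    rw [ht]
    have : max s 1 < 2 := max_lt hs (by norm_num)
    linarith
  have hC0 : 0 ≤ |C| := abs_nonneg C
  have htend : Filter.Tendsto (fun K : ℕ => (K:ℝ) ^ (2 - t)) Filter.atTop Filter.atTop :=
    (tendsto_rpow_atTop ht2).comp tendsto_natCast_atTop_atTop
  obtain ⟨K, hK1', hK⟩ := ((Filter.eventually_ge_atTop 1).and
    (htend.eventually_gt_atTop (|C| * 11 ^ t))).exists
  have hK1 : (1:ℝ) ≤ K := by exact_mod_cast hK1'
  have hKpos : (0:ℝ) < K := by linarith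
  have hL1 : (1:ℝ) ≤ 2 * K + 9 := by linarith
  have hlt : |C| * (2 * (K:ℝ) + 9) ^ s < (K:ℝ) ^ 2 := by
    have h1 : (2 * (K:ℝ) + 9) ^ s ≤ (2 * (K:ℝ) + 9) ^ t :=
      Real.rpow_le_rpow_of_exponent_le hL1 hst
    have h2 : (2 * (K:ℝ) + 9) ^ t ≤ (11 * (K:ℝ)) ^ t :=
      Real.rpow_le_rpow (by linarith) (by linarith) (by linarith)
    have h3 : (11 * (K:ℝ)) ^ t = 11 ^ t * (K:ℝ) ^ t :=
      Real.mul_rpow (by norm_num) hKpos.le
    have h4 : (K:ℝ) ^ (2 - t) * (K:ℝ) ^ t = (K:ℝ) ^ 2 := by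
      rw [← Real.rpow_add hKpos, sub_add_cancel]
      exact Real.rpow_natCast _ 2
    have h5 : 0 < (K:ℝ) ^ t := Real.rpow_pos_of_pos hKpos t
    calc |C| * (2 * (K:ℝ) + 9) ^ s ≤ |C| * (11 ^ t * (K:ℝ) ^ t) := by
          rw [← h3]; exact mul_le_mul_of_nonneg_left (h1.trans h2) hC0
      _ = (|C| * 11 ^ t) * (K:ℝ) ^ t := by ring
      _ < (K:ℝ) ^ (2 - t) * (K:ℝ) ^ t := mul_lt_mul_of_pos_right hK h5
      _ = (K:ℝ) ^ 2 := h4
  obtain ⟨E, i1, i2, i3, x, xs, bi, dn, n1, n2, n3, n4⟩ :=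
    Q101.ChA.exists_spaceK K (2 * K ^ 2)
  have h : Q101.ChB.Ex K (2 * K ^ 2) x xs := ⟨bi, n1, n2, n3, n4⟩
  refine ⟨E, i1, i2, i3, x, xs, ⟨⟨bi, dn, Q101.ChB.total h, 1, ?_⟩, ?_⟩,
    Q101.ChC.norm_x h, Q101.ChC.norm_xs h, 2 * K + 9, hL1, ?_, 2 * K ^ 2, ?_, ?_⟩
  · intro n
    exact ⟨(Q101.ChC.norm_x h n).le, (Q101.ChC.norm_xs h n).le⟩
  · exact ⟨_, fun N f => Q101.ChC.partial_bound h N f⟩
  · exact fun M => Q101.ChB.cheb h hK1' rfl M
  · have h2 : 0 < K ^ 2 := pow_pos (show 0 < K by omega) 2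
    omega
  · intro hq
    have hLs : 0 < (2 * (K:ℝ) + 9) ^ s := Real.rpow_pos_of_pos (by linarith) s
    refine Q101.ChC.not_qg h rfl (|C| * (2 * K + 9) ^ s) (by positivity) hlt ?_
    intro f A hA hg
    refine (hq f A hA hg).trans ?_
    apply mul_le_mul_of_nonneg_right _ (norm_nonneg _)
    exact mul_le_mul_of_nonneg_right (le_abs_self C) hLs.le

end Pool.Agent.Results.MP_f9d380_an.ChebyshevParameterFails
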